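import Pool.Agent.L5helper86.NB.Low

set_option autoImplicit false

/-! # `N` bodies near a binary collision: Liouville measures (helper62)

After `Pool.Agent.L5helper85.NB.Four` (four bodies) and `Pool.Agent.L5helper86.NB` (`N` bodies, the
whole energy surface). -/

namespace Pool.Agent.L5helper62.NB

open MeasureTheory Set Metric Pool.Agent.Y516.NW Pool.Agent.L5helper85.NB Pool.Agent.L5helper86.NB

variable {n : ℕ}

/-- the part of the energy surface near a configuration with kinetic energy at most `κ` -/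
def NbK (m : Fin (n + 1) → ℝ) (E : ℝ) (q0 : Cfg (n + 1)) (ε κ : ℝ) :
    Set (Cfg (n + 1) × Cfg (n + 1)) :=
  {z | z ∈ Surf m E ∧ (∀ i, ‖z.1 i - q0 i‖ < ε) ∧ kin m z.2 ≤ κ}

/-- the integral in the coordinates of the pair -/
theorem SN_int (m : Fin (n + 1) → ℝ) (hm : ∀ i, 0 < m i) (a b : Fin (n + 1)) (hab : a ≠ b) :
    ∃ k : ENNReal, k ≠ 0 ∧ k ≠ ⊤ ∧ ∀ (W : E3 → ENNReal), Measurable W →
      ∀ B : Set (Rest2 n a b → E3), MeasurableSet B →
      ∫⁻ x, W (SN m a b x).1 * B.indicator 1 (SN m a b x).2 = k * ((∫⁻ y, W y) * volume B) := by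
  have h00 : (volume : Measure (E3 × (Rest2 n a b → E3))).IsAddHaarMeasure :=
    Measure.prod.instIsAddHaarMeasure _ _
  obtain ⟨k, hk0, hkt, hk⟩ := transfer (SN m a b) (SN_inj m hm a b hab) (SN_dim a b hab)
  refine ⟨k, hk0, hkt, fun W hW B hB => ?_⟩
  have h1 := hk (fun z => W z.1 * B.indicator 1 z.2)
  rw [h1]
  have h2 : ∫⁻ z : E3 × (Rest2 n a b → E3), W z.1 * B.indicator 1 z.2 =
      (∫⁻ y, W y) * ∫⁻ y : Rest2 n a b → E3, B.indicator 1 y := by
    rw [Measure.volume_eq_prod]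
    exact lintegral_prod_mul hW.aemeasurable (measurable_one.indicator hB).aemeasurable
  rw [h2, lintegral_indicator_one hB]

/-- the integrals of the upper bounds -/
theorem up_int (m : Fin (n + 1) → ℝ) (hm : ∀ i, 0 < m i) (a b : Fin (n + 1)) (hab : a ≠ b)
    (s : ℝ) (hs : 3 < s) (w : ℝ) (hw : 0 < w) (B : Set (Rest2 n a b → E3)) (hB : MeasurableSet B)
    (hBt : volume B ≠ ⊤) : ∃ D : ℝ, 0 ≤ D ∧ ∀ κ : ℝ, 0 < κ →
      ∫⁻ x, out s (w / κ) (SN m a b x).1 * B.indicator 1 (SN m a b x).2 =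
        ENNReal.ofReal (D * κ ^ (s - 3)) := by
  obtain ⟨k, hk0, hkt, hk⟩ := SN_int m hm a b hab
  have hco : 0 ≤ co s := by
    unfold co
    have h1 : 0 ≤ volume.real (ball (0 : E3) 1) := measureReal_nonneg
    exact div_nonneg (by positivity) (by linarith)
  refine ⟨k.toReal * (co s * w ^ (3 - s) * (volume B).toReal), by positivity, fun κ hκ => ?_⟩
  rw [hk _ (out_meas s (w / κ)) B hB, lint_out hs (by positivity)]
  nth_rewrite 1 [← ENNReal.ofReal_toReal hkt]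
  nth_rewrite 1 [← ENNReal.ofReal_toReal hBt]
  rw [← ENNReal.ofReal_mul (by positivity), ← ENNReal.ofReal_mul ENNReal.toReal_nonneg]
  congr 1
  have h1 : (w / κ) ^ (3 - s) = w ^ (3 - s) * κ ^ (s - 3) := by
    rw [Real.div_rpow hw.le hκ.le, div_eq_mul_inv, ← Real.rpow_neg hκ.le]
    congr 2
    ring
  rw [h1]
  ring

/-- the distances of the other pairs -/
theorem exists_sep (hn : 2 ≤ n) (q0 : Cfg (n + 1)) (a b : Fin (n + 1)) (hab : a ≠ b)
    (hne : ∀ i j, P2 a b i j → q0 i ≠ q0 j) :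
    ∃ δ : ℝ, 0 < δ ∧ ∀ i j, P2 a b i j → 2 * δ ≤ ‖q0 i - q0 j‖ := by
  obtain ⟨c, hc⟩ : ∃ c : Fin (n + 1), c ∉ ({a, b} : Finset (Fin (n + 1))) := by
    by_contra hcon
    push Not at hcon
    have h1 : (Finset.univ : Finset (Fin (n + 1))) ⊆ {a, b} := fun k _ => hcon k
    have h2 := Finset.card_le_card h1
    rw [Finset.card_univ, Fintype.card_fin, Finset.card_pair hab] at h2
    omega
  simp only [Finset.mem_insert, Finset.mem_singleton, not_or] at hc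
  obtain ⟨p, hp, hmin⟩ := Finset.exists_min_image
    (Finset.univ.filter (fun p : Fin (n + 1) × Fin (n + 1) => P2 a b p.1 p.2))
    (fun p => ‖q0 p.1 - q0 p.2‖) ⟨(c, a),
      Finset.mem_filter.2 ⟨Finset.mem_univ _, hc.1, fun h => hc.1 h.1, fun h => hc.2 h.1⟩⟩
  have hp' : P2 a b p.1 p.2 := (Finset.mem_filter.1 hp).2
  have h0 : 0 < ‖q0 p.1 - q0 p.2‖ := norm_pos_iff.2 (sub_ne_zero.2 (hne _ _ hp'))
  refine ⟨‖q0 p.1 - q0 p.2‖ / 2, by positivity, fun i j hij => ?_⟩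
  have := hmin (i, j) (Finset.mem_filter.2 ⟨Finset.mem_univ _, hij⟩)
  dsimp only at this
  linarith

theorem sep_near {q0 q : Cfg (n + 1)} {a b : Fin (n + 1)} {δ ε : ℝ} (hε : ε ≤ δ / 2)
    (hδ : ∀ i j, P2 a b i j → 2 * δ ≤ ‖q0 i - q0 j‖) (hq : ∀ i, ‖q i - q0 i‖ < ε) :
    ∀ i j, P2 a b i j → δ ≤ ‖q i - q j‖ := by
  intro i j hij
  have h1 := hδ i j hij
  have h2 : q0 i - q0 j = (q i - q j) + -(q i - q0 i) + (q j - q0 j) := by abel
  have h3 : ‖q0 i - q0 j‖ ≤ ‖q i - q j‖ + ‖q i - q0 i‖ + ‖q j - q0 j‖ := by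
    rw [h2]
    refine (norm_add_le _ _).trans ?_
    gcongr
    refine (norm_add_le _ _).trans ?_
    rw [norm_neg]
  have h4 := hq i
  have h5 := hq j
  linarith

/-- data over a configuration which carries points of the part -/
theorem over_near (m : Fin (n + 1) → ℝ) (E ε κ : ℝ) (q0 : Cfg (n + 1)) (x : Fin n → E3)
    (p : Cfg (n + 1)) (hp : (cf m x, p) ∈ NbK m E q0 ε κ) :
    (∀ i j, i ≠ j → cf m x i ≠ cf m x j) ∧ (∀ i, ‖cf m x i - q0 i‖ < ε) ∧
      pot m (cf m x) + E ≤ κ := by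
  obtain ⟨⟨hx, _, _, hen⟩, hR, hk⟩ := hp
  refine ⟨hx, hR, ?_⟩
  have h1 : kin m p - pot m (cf m x) = E := hen
  have h2 : kin m p ≤ κ := hk
  linarith

/-- the distance of the close pair and the kinetic energy -/
theorem pair_near (m : Fin (n + 1) → ℝ) (hm : ∀ i, 0 < m i) (E : ℝ) {q0 q : Cfg (n + 1)}
    {a b : Fin (n + 1)} (hab : a ≠ b) (heq : q0 a = q0 b) {δ ε κ : ℝ} (hδ0 : 0 < δ)
    (hε : ε ≤ δ / 2) (hδ : ∀ i j, P2 a b i j → 2 * δ ≤ ‖q0 i - q0 j‖)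
    (hq : ∀ i, ‖q i - q0 i‖ < ε) (hx : ∀ i j, i ≠ j → q i ≠ q j) (hK : pot m q + E ≤ κ)
    (hEκ : |E| ≤ κ) :
    0 < ‖q a - q b‖ ∧ m a * m b / 2 / κ ≤ ‖q a - q b‖ ∧
      pot m q + E ≤ (m a * m b + ((∑ i, m i) ^ 2 / δ + |E|) * δ) / ‖q a - q b‖ ∧
      ‖q a - q b‖ ≤ δ := by
  have ha := hm a
  have hb := hm b
  have hr : 0 < ‖q a - q b‖ := norm_pos_iff.2 (sub_ne_zero.2 (hx a b hab))
  have hrle : ‖q a - q b‖ ≤ δ := by
    have h2 : q a - q b = (q a - q0 a) + -(q b - q0 b) := by rw [heq]; abel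
    rw [h2]
    refine (norm_add_le _ _).trans ?_
    rw [norm_neg]
    have := (hq a).le
    have := (hq b).le
    linarith
  have hlow := le_pot m hm q a b hab
  have hup := pot_le2 m hm q a b δ hδ0 (sep_near hε hδ hq)
  have hEn := neg_abs_le E
  have hEn' := le_abs_self E
  have hκ : 0 < κ := by
    have h1 : 0 < m a * m b / ‖q a - q b‖ := by positivity
    linarith
  refine ⟨hr, ?_, ?_, hrle⟩
  · have h1 : m a * m b / ‖q a - q b‖ ≤ 2 * κ := by linarith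
    rw [div_le_iff₀ hr] at h1
    rw [div_le_iff₀ hκ]
    linarith
  · rw [add_div]
    have h1 : (∑ i, m i) ^ 2 / δ + |E| ≤ ((∑ i, m i) ^ 2 / δ + |E|) * δ / ‖q a - q b‖ := by
      rw [le_div_iff₀ hr]
      exact mul_le_mul_of_nonneg_left hrle (by positivity)
    linarith

/-- upper bounds -/
theorem loc_up (hn : 2 ≤ n) (m : Fin (n + 1) → ℝ) (hm : ∀ i, 0 < m i) (e : ℝ) (he : 9 / 2 < e)
    (E : ℝ) (q0 : Cfg (n + 1)) (a b : Fin (n + 1)) (hab : a ≠ b) (heq : q0 a = q0 b)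
    {δ ε : ℝ} (hδ0 : 0 < δ) (hε : ε ≤ δ / 2)
    (hδ : ∀ i j, P2 a b i j → 2 * δ ≤ ‖q0 i - q0 j‖) :
    ∃ C : ℝ, 0 ≤ C ∧ ∀ κ : ℝ, 0 < κ → |E| ≤ κ →
      lv m E e (NbK m E q0 ε κ) ≤ ENNReal.ofReal (C * κ ^ (e - 3)) ∧
      ∀ (ψ : Cfg (n + 1) × Cfg (n + 1) → ℝ)
        (φ : ℝ → Cfg (n + 1) × Cfg (n + 1) → Cfg (n + 1) × Cfg (n + 1)), IsFl m E ψ φ →
        lv m E e {z | z ∈ NbK m E q0 ε κ ∧ NonW (Surf m E) φ z} ≤
          ENNReal.ofReal (C * κ ^ (e - 9 / 2)) := by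
  have hma := hm a
  have hmb := hm b
  have hVe : ENNReal.ofReal (V0 m).toReal = V0 m := ENNReal.ofReal_toReal (V0_lt m hm).ne
  obtain ⟨B, hB⟩ : ∃ B : Set (Rest2 n a b → E3), B = closedBall (fun k => q0 k.1) |ε| := ⟨_, rfl⟩
  have hBm : MeasurableSet B := by rw [hB]; exact measurableSet_closedBall
  have hBt : volume B ≠ ⊤ := by rw [hB]; exact measure_closedBall_lt_top.ne
  obtain ⟨D, hD0, hD⟩ := up_int m hm a b hab e (by linarith) (m a * m b / 2) (by positivity) B hBm hBt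
  obtain ⟨D', hD'0, hD'⟩ := up_int m hm a b hab (e - 3 / 2) (by linarith) (m a * m b / 2)
    (by positivity) B hBm hBt
  obtain ⟨C, hC, hd⟩ := dens_nonw hn m hm
  obtain ⟨A, hA⟩ : ∃ A, A = m a * m b + ((∑ i, m i) ^ 2 / δ + |E|) * δ := ⟨_, rfl⟩
  have hA0 : 0 < A := by rw [hA]; positivity
  have hmemB : ∀ x : Fin n → E3, (∀ i, ‖cf m x i - q0 i‖ < ε) → (SN m a b x).2 ∈ B := by
    intro x hx
    rw [hB, SN_apply, mem_closedBall, dist_eq_norm, pi_norm_le_iff_of_nonneg (abs_nonneg _)]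
    intro k
    exact (hx k.1).le.trans (le_abs_self ε)
  refine ⟨A ^ e * (V0 m).toReal * D + C * A ^ (e - 3 / 2) * δ ^ (-(3 / 2) : ℝ) *
    (V0 m).toReal * D', by positivity, fun κ hκ hEκ => ⟨?_, fun ψ φ hφ => ?_⟩⟩
  · have hpt : ∀ x : Fin n → E3, dens m E e (NbK m E q0 ε κ) x ≤
        ENNReal.ofReal (A ^ e * (V0 m).toReal) *
          (out e (m a * m b / 2 / κ) (SN m a b x).1 * B.indicator 1 (SN m a b x).2) := by
      intro x
      by_cases hz : ¬ (0 < pot m (cf m x) + E) ∨ ∀ p, (cf m x, p) ∉ NbK m E q0 ε κ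
      · rw [dens_zero m E e _ x hz]; exact zero_le
      rw [not_or, not_not, not_forall] at hz
      obtain ⟨hK, p, hp⟩ := hz
      rw [not_not] at hp
      obtain ⟨hx, hR, hKκ⟩ := over_near m E ε κ q0 x p hp
      obtain ⟨hr, hrlow, hKup, -⟩ := pair_near m hm E hab heq hδ0 hε hδ hR hx hKκ hEκ
      rw [← hA] at hKup
      refine (dens_le m E e _ x).trans ?_
      rw [indicator_of_mem (hmemB x hR), Pi.one_apply, mul_one, SN_apply]
      dsimp only
      unfold out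
      rw [indicator_of_mem (show cf m x a - cf m x b ∈ {y : E3 | m a * m b / 2 / κ ≤ ‖y‖} from hrlow),
        ENNReal.ofReal_mul (by positivity), hVe, mul_right_comm,
        ← ENNReal.ofReal_mul (by positivity)]
      refine mul_le_mul_left (ENNReal.ofReal_le_ofReal ?_) _
      calc (pot m (cf m x) + E) ^ e ≤ (A / ‖cf m x a - cf m x b‖) ^ e := by
            exact Real.rpow_le_rpow hK.le hKup (by linarith)
        _ = A ^ e * ‖cf m x a - cf m x b‖ ^ (-e) := by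
            rw [Real.div_rpow hA0.le hr.le, Real.rpow_neg hr.le]
            rfl
    unfold lv
    refine (lintegral_mono hpt).trans ?_
    rw [lintegral_const_mul' _ _ ENNReal.ofReal_ne_top, hD κ hκ, ← ENNReal.ofReal_mul (by positivity)]
    refine ENNReal.ofReal_le_ofReal ?_
    have h1 : 0 ≤ C * A ^ (e - 3 / 2) * δ ^ (-(3 / 2) : ℝ) * (V0 m).toReal * D' * κ ^ (e - 3) := by
      positivity
    linarith
  · rcases le_or_gt E 0 with hE | hE
    swap
    · have hP := Pool.Agent.Y438.NW.pos (n + 1) m hm E hE ψ φ hφ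
      have : lv m E e {z | z ∈ NbK m E q0 ε κ ∧ NonW (Surf m E) φ z} = 0 := by
        unfold lv
        rw [lintegral_congr (fun x => dens_zero m E e _ x
          (Or.inr fun p hp => hP _ hp.1.1 hp.2)), lintegral_zero]
      rw [this]
      exact zero_le
    have hpt : ∀ x : Fin n → E3, dens m E e {z | z ∈ NbK m E q0 ε κ ∧ NonW (Surf m E) φ z} x ≤
        ENNReal.ofReal (C * A ^ (e - 3 / 2) * δ ^ (-(3 / 2) : ℝ) * (V0 m).toReal) *
          (out (e - 3 / 2) (m a * m b / 2 / κ) (SN m a b x).1 *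
            B.indicator 1 (SN m a b x).2) := by
      intro x
      by_cases hz : ¬ (0 < pot m (cf m x) + E) ∨
        ∀ p, (cf m x, p) ∉ {z | z ∈ NbK m E q0 ε κ ∧ NonW (Surf m E) φ z}
      · rw [dens_zero m E e _ x hz]; exact zero_le
      rw [not_or, not_not, not_forall] at hz
      obtain ⟨hK, p, hp⟩ := hz
      rw [not_not] at hp
      obtain ⟨hx, hR, hKκ⟩ := over_near m E ε κ q0 x p hp.1
      obtain ⟨hr, hrlow, hKup, -⟩ := pair_near m hm E hab heq hδ0 hε hδ hR hx hKκ hEκ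
      rw [← hA] at hKup
      have h1 := hd E e hE ψ φ hφ x hx a b hab δ hδ0 (sep_near hε hδ hR) hK
        {z | z ∈ NbK m E q0 ε κ ∧ NonW (Surf m E) φ z} (fun z hz => hz.2)
      refine h1.trans ?_
      rw [indicator_of_mem (hmemB x hR), Pi.one_apply, mul_one, SN_apply]
      dsimp only
      unfold out
      rw [indicator_of_mem (show cf m x a - cf m x b ∈ {y : E3 | m a * m b / 2 / κ ≤ ‖y‖} from hrlow),
        ENNReal.ofReal_mul (by positivity : (0 : ℝ) ≤ C * A ^ (e - 3 / 2) * δ ^ (-(3 / 2) : ℝ)),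
        hVe, mul_right_comm _ (V0 m), ← ENNReal.ofReal_mul (by positivity)]
      refine mul_le_mul_left (ENNReal.ofReal_le_ofReal ?_) _
      have h2 : (pot m (cf m x) + E) ^ (e - 3 / 2) ≤
          A ^ (e - 3 / 2) * ‖cf m x a - cf m x b‖ ^ (-(e - 3 / 2)) := by
        calc (pot m (cf m x) + E) ^ (e - 3 / 2) ≤
              (A / ‖cf m x a - cf m x b‖) ^ (e - 3 / 2) :=
              Real.rpow_le_rpow hK.le hKup (by linarith)
          _ = _ := by
              rw [Real.div_rpow hA0.le hr.le, Real.rpow_neg hr.le]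
              rfl
      calc C * (pot m (cf m x) + E) ^ (e - 3 / 2) * δ ^ (-(3 / 2) : ℝ)
          ≤ C * (A ^ (e - 3 / 2) * ‖cf m x a - cf m x b‖ ^ (-(e - 3 / 2))) *
            δ ^ (-(3 / 2) : ℝ) := by gcongr
        _ = _ := by ring
    unfold lv
    refine (lintegral_mono hpt).trans ?_
    rw [lintegral_const_mul' _ _ ENNReal.ofReal_ne_top, hD' κ hκ,
      ← ENNReal.ofReal_mul (by positivity)]
    refine ENNReal.ofReal_le_ofReal ?_
    have e1 : e - 3 / 2 - 3 = e - 9 / 2 := by ring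
    rw [e1]
    have h1 : 0 ≤ A ^ e * (V0 m).toReal * D * κ ^ (e - 9 / 2) := by positivity
    linarith

/-- the nonwandering points for small exponents -/
theorem loc_up_small (hn : 2 ≤ n) (m : Fin (n + 1) → ℝ) (hm : ∀ i, 0 < m i) (e : ℝ)
    (he : 3 / 2 ≤ e) (he' : e < 9 / 2) (E : ℝ) (q0 : Cfg (n + 1)) (a b : Fin (n + 1)) (hab : a ≠ b)
    (heq : q0 a = q0 b) {δ ε : ℝ} (hδ0 : 0 < δ) (hε : ε ≤ δ / 2)
    (hδ : ∀ i j, P2 a b i j → 2 * δ ≤ ‖q0 i - q0 j‖) :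
    ∃ C : ℝ, 0 ≤ C ∧ ∀ κ : ℝ, |E| ≤ κ → ∀ (ψ : Cfg (n + 1) × Cfg (n + 1) → ℝ)
        (φ : ℝ → Cfg (n + 1) × Cfg (n + 1) → Cfg (n + 1) × Cfg (n + 1)), IsFl m E ψ φ →
        lv m E e {z | z ∈ NbK m E q0 ε κ ∧ NonW (Surf m E) φ z} ≤ ENNReal.ofReal C := by
  have hma := hm a
  have hmb := hm b
  have hVe : ENNReal.ofReal (V0 m).toReal = V0 m := ENNReal.ofReal_toReal (V0_lt m hm).ne
  obtain ⟨B, hB⟩ : ∃ B : Set (Rest2 n a b → E3), B = closedBall (fun k => q0 k.1) |ε| := ⟨_, rfl⟩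
  have hBm : MeasurableSet B := by rw [hB]; exact measurableSet_closedBall
  have hBt : volume B ≠ ⊤ := by rw [hB]; exact measure_closedBall_lt_top.ne
  obtain ⟨k, hk0, hkt, hk⟩ := SN_int m hm a b hab
  obtain ⟨C, hC, hd⟩ := dens_nonw hn m hm
  obtain ⟨A, hA⟩ : ∃ A, A = m a * m b + ((∑ i, m i) ^ 2 / δ + |E|) * δ := ⟨_, rfl⟩
  have hA0 : 0 < A := by rw [hA]; positivity
  have hcs : 0 < cs (e - 3 / 2) := cs_pos (by linarith)
  have hmemB : ∀ x : Fin n → E3, (∀ i, ‖cf m x i - q0 i‖ < ε) → (SN m a b x).2 ∈ B := by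
    intro x hx
    rw [hB, SN_apply, mem_closedBall, dist_eq_norm, pi_norm_le_iff_of_nonneg (abs_nonneg _)]
    intro k
    exact (hx k.1).le.trans (le_abs_self ε)
  refine ⟨C * A ^ (e - 3 / 2) * δ ^ (-(3 / 2) : ℝ) * (V0 m).toReal *
    (k.toReal * (cs (e - 3 / 2) * δ ^ (3 - (e - 3 / 2)) * (volume B).toReal)), by positivity,
    fun κ hEκ ψ φ hφ => ?_⟩
  rcases le_or_gt E 0 with hE | hE
  swap
  · have hP := Pool.Agent.Y438.NW.pos (n + 1) m hm E hE ψ φ hφ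
    have : lv m E e {z | z ∈ NbK m E q0 ε κ ∧ NonW (Surf m E) φ z} = 0 := by
      unfold lv
      rw [lintegral_congr (fun x => dens_zero m E e _ x
        (Or.inr fun p hp => hP _ hp.1.1 hp.2)), lintegral_zero]
    rw [this]
    exact zero_le
  have hpt : ∀ x : Fin n → E3, dens m E e {z | z ∈ NbK m E q0 ε κ ∧ NonW (Surf m E) φ z} x ≤
      ENNReal.ofReal (C * A ^ (e - 3 / 2) * δ ^ (-(3 / 2) : ℝ) * (V0 m).toReal) *
        (pw (e - 3 / 2) δ (SN m a b x).1 * B.indicator 1 (SN m a b x).2) := by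
    intro x
    by_cases hz : ¬ (0 < pot m (cf m x) + E) ∨
      ∀ p, (cf m x, p) ∉ {z | z ∈ NbK m E q0 ε κ ∧ NonW (Surf m E) φ z}
    · rw [dens_zero m E e _ x hz]; exact zero_le
    rw [not_or, not_not, not_forall] at hz
    obtain ⟨hK, p, hp⟩ := hz
    rw [not_not] at hp
    obtain ⟨hx, hR, hKκ⟩ := over_near m E ε κ q0 x p hp.1
    obtain ⟨hr, -, hKup, hrle⟩ := pair_near m hm E hab heq hδ0 hε hδ hR hx hKκ hEκ
    rw [← hA] at hKup
    have h1 := hd E e hE ψ φ hφ x hx a b hab δ hδ0 (sep_near hε hδ hR) hK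
      {z | z ∈ NbK m E q0 ε κ ∧ NonW (Surf m E) φ z} (fun z hz => hz.2)
    refine h1.trans ?_
    rw [indicator_of_mem (hmemB x hR), Pi.one_apply, mul_one, SN_apply]
    dsimp only
    rw [pw_eq (norm_pos_iff.1 hr) hrle,
      ENNReal.ofReal_mul (by positivity : (0 : ℝ) ≤ C * A ^ (e - 3 / 2) * δ ^ (-(3 / 2) : ℝ)),
      hVe, mul_right_comm _ (V0 m), ← ENNReal.ofReal_mul (by positivity)]
    refine mul_le_mul_left (ENNReal.ofReal_le_ofReal ?_) _
    have h2 : (pot m (cf m x) + E) ^ (e - 3 / 2) ≤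
        A ^ (e - 3 / 2) * ‖cf m x a - cf m x b‖ ^ (-(e - 3 / 2)) := by
      calc (pot m (cf m x) + E) ^ (e - 3 / 2) ≤
            (A / ‖cf m x a - cf m x b‖) ^ (e - 3 / 2) :=
            Real.rpow_le_rpow hK.le hKup (by linarith)
        _ = _ := by
            rw [Real.div_rpow hA0.le hr.le, Real.rpow_neg hr.le]
            rfl
    calc C * (pot m (cf m x) + E) ^ (e - 3 / 2) * δ ^ (-(3 / 2) : ℝ)
        ≤ C * (A ^ (e - 3 / 2) * ‖cf m x a - cf m x b‖ ^ (-(e - 3 / 2))) *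
          δ ^ (-(3 / 2) : ℝ) := by gcongr
      _ = _ := by ring
  unfold lv
  refine (lintegral_mono hpt).trans (le_of_eq ?_)
  rw [lintegral_const_mul' _ _ ENNReal.ofReal_ne_top, hk _ (pw_meas _ _) B hBm,
    lint_pw (by linarith) hδ0]
  nth_rewrite 1 [← ENNReal.ofReal_toReal hkt]
  nth_rewrite 1 [← ENNReal.ofReal_toReal hBt]
  rw [← ENNReal.ofReal_mul (by positivity), ← ENNReal.ofReal_mul ENNReal.toReal_nonneg,
    ← ENNReal.ofReal_mul (by positivity)]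

end Pool.Agent.L5helper62.NB
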