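import Pool.Agent.L5helper62.NB.Loc

set_option autoImplicit false

/-! # `N` bodies near a binary collision: lower bound (helper62) -/

namespace Pool.Agent.L5helper62.NB

open MeasureTheory Set Metric Pool.Agent.Y516.NW Pool.Agent.L5helper85.NB Pool.Agent.L5helper86.NB

variable {n : ℕ}

/-- configurations whose coordinates are near those of `q0` -/
theorem exists_eta (m : Fin (n + 1) → ℝ) (hm : ∀ i, 0 < m i) (a b : Fin (n + 1)) (hab : a ≠ b)
    (q0 : Cfg (n + 1)) (hq0 : ∑ i, m i • q0 i = 0) {ε : ℝ} (hε : 0 < ε) :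
    ∃ η : ℝ, 0 < η ∧ ∀ x : Fin n → E3,
      ‖SN m a b x - (q0 a - q0 b, fun k => q0 k.1)‖ < η → ∀ i, ‖cf m x i - q0 i‖ < ε := by
  obtain ⟨x0, hx0⟩ : ∃ x0 : Fin n → E3, x0 = fun i => q0 (Fin.castSucc i) := ⟨_, rfl⟩
  have hcf : cf m x0 = q0 := by rw [hx0]; exact cf_of m hm q0 hq0
  have hS0 : SN m a b x0 = (q0 a - q0 b, fun k => q0 k.1) := by rw [SN_apply, hcf]
  let e : (Fin n → E3) ≃ₗ[ℝ] E3 × (Rest2 n a b → E3) :=
    LinearEquiv.ofInjectiveOfFinrankEq (SN m a b) (SN_inj m hm a b hab) (SN_dim a b hab)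
  let eL : (Fin n → E3) ≃L[ℝ] E3 × (Rest2 n a b → E3) := e.toContinuousLinearEquiv
  have he : ∀ x, eL x = SN m a b x := fun x => rfl
  let G : E3 × (Rest2 n a b → E3) → Cfg (n + 1) := fun z => cfL m (eL.symm z)
  have hG : Continuous G :=
    ((cfL m).continuous_of_finiteDimensional).comp eL.symm.continuous
  have hGx : ∀ x, G (SN m a b x) = cf m x := by
    intro x
    show cfL m (eL.symm (SN m a b x)) = cf m x
    rw [← he, eL.symm_apply_apply]; rfl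
  obtain ⟨η, hη, h1⟩ := Metric.continuous_iff.1 hG (SN m a b x0) ε hε
  refine ⟨η, hη, fun x hx i => ?_⟩
  have h2 := h1 (SN m a b x) (by rwa [dist_eq_norm, hS0])
  rw [hGx, hGx, hcf, dist_eq_norm] at h2
  exact lt_of_le_of_lt (norm_le_pi_norm (cf m x - q0) i) h2

/-- lower bound -/
theorem loc_low (hn : 2 ≤ n) (m : Fin (n + 1) → ℝ) (hm : ∀ i, 0 < m i) (e : ℝ) (he : 0 ≤ e)
    (E : ℝ) (q0 : Cfg (n + 1)) (hq0 : ∑ i, m i • q0 i = 0) (a b : Fin (n + 1)) (hab : a ≠ b)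
    (heq : q0 a = q0 b) {δ ε : ℝ} (hδ0 : 0 < δ) (hε0 : 0 < ε) (hε : ε ≤ δ / 2)
    (hδ : ∀ i j, P2 a b i j → 2 * δ ≤ ‖q0 i - q0 j‖) :
    ∃ c κ₀ : ℝ, 0 < c ∧ 0 < κ₀ ∧ ∀ κ : ℝ, κ₀ ≤ κ →
      ENNReal.ofReal (c * κ ^ (e - 3)) ≤ lv m E e (NbK m E q0 ε κ) := by
  have hma := hm a
  have hmb := hm b
  obtain ⟨M, hM⟩ : ∃ M, M = ∑ i, m i := ⟨_, rfl⟩
  obtain ⟨e1, he1⟩ := exists_norm_eq E3 (show (0 : ℝ) ≤ 1 by norm_num)
  obtain ⟨w, hw⟩ : ∃ w, w = m a * m b := ⟨_, rfl⟩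
  have hw0 : 0 < w := by rw [hw]; positivity
  obtain ⟨η, hη, hball⟩ := exists_eta m hm a b hab q0 hq0 hε0
  obtain ⟨k, hk0, hkt, hk⟩ := SN_int m hm a b hab
  have hA0 : volume (ball (0 : E3) 1) ≠ 0 := (measure_ball_pos volume _ one_pos).ne'
  have hAt : volume (ball (0 : E3) 1) ≠ ⊤ := measure_ball_lt_top.ne
  have hV : 0 < (V0 m).toReal := ENNReal.toReal_pos (V0_pos m hm).ne' (V0_lt m hm).ne
  obtain ⟨S, hS⟩ : ∃ S, S = (volume (ball (0 : E3) 1)).toReal := ⟨_, rfl⟩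
  have hS0 : 0 < S := by rw [hS]; exact ENNReal.toReal_pos hA0 hAt
  obtain ⟨D2, hD2⟩ : ∃ D : Set (Rest2 n a b → E3), D = closedBall (fun k => q0 k.1) (η / 2) :=
    ⟨_, rfl⟩
  have hD2m : MeasurableSet D2 := by rw [hD2]; exact measurableSet_closedBall
  have hD2t : volume D2 ≠ ⊤ := by rw [hD2]; exact measure_closedBall_lt_top.ne
  have hD20 : volume D2 ≠ 0 := by
    rw [hD2]
    exact (measure_closedBall_pos volume _ (by positivity)).ne'
  have hD2p : 0 < (volume D2).toReal := ENNReal.toReal_pos hD20 hD2t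
  have hkp : 0 < k.toReal := ENNReal.toReal_pos hk0 hkt
  refine ⟨(1 / 2) ^ e * (V0 m).toReal * (k.toReal * ((w / 6) ^ 3 * S * (volume D2).toReal)),
    2 * w / η + 10 * (M ^ 2 / δ + |E|) + 1, by positivity, by positivity, ?_⟩
  intro κ hκ₀
  have hQ : 0 ≤ M ^ 2 / δ := by positivity
  have hE0 := abs_nonneg E
  have hwη : 0 ≤ 2 * w / η := by positivity
  have hκ : 0 < κ := by linarith
  have hκη : 5 / 3 * (w / κ) < η := by
    have h1 : 2 * w / η ≤ κ := by linarith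
    rw [div_le_iff₀ hη] at h1
    rw [← mul_div_assoc, div_lt_iff₀ hκ]
    nlinarith
  have hκQ : 10 * (M ^ 2 / δ + |E|) ≤ κ := by linarith
  obtain ⟨y0, hy0⟩ : ∃ y0 : E3, y0 = (3 / 2 * (w / κ)) • e1 := ⟨_, rfl⟩
  have hy0n : ‖y0‖ = 3 / 2 * (w / κ) := by
    rw [hy0, norm_smul, he1, mul_one, Real.norm_of_nonneg (by positivity)]
  obtain ⟨D1, hD1⟩ : ∃ D : Set E3, D = closedBall y0 (w / (6 * κ)) := ⟨_, rfl⟩
  have hD1m : MeasurableSet D1 := by rw [hD1]; exact measurableSet_closedBall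
  have h6 : w / (6 * κ) = 1 / 6 * (w / κ) := by ring
  have hpt : ∀ x : Fin n → E3, ENNReal.ofReal ((κ / 2) ^ e * (V0 m).toReal) *
      (D1.indicator 1 (SN m a b x).1 * D2.indicator 1 (SN m a b x).2) ≤
      dens m E e (NbK m E q0 ε κ) x := by
    intro x
    by_cases h1 : (SN m a b x).1 ∈ D1
    swap
    · rw [indicator_of_notMem h1, zero_mul, mul_zero]; exact zero_le
    by_cases h2 : (SN m a b x).2 ∈ D2
    swap
    · rw [indicator_of_notMem h2, mul_zero, mul_zero]; exact zero_le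
    rw [indicator_of_mem h1, indicator_of_mem h2, Pi.one_apply, Pi.one_apply, mul_one, mul_one]
    rw [hD1, mem_closedBall, dist_eq_norm, h6] at h1
    rw [hD2, mem_closedBall, dist_eq_norm] at h2
    have h1a : 4 / 3 * (w / κ) ≤ ‖(SN m a b x).1‖ := by
      have g1 := norm_sub_norm_le y0 (SN m a b x).1
      rw [norm_sub_rev y0, hy0n] at g1
      linarith
    have h1b : ‖(SN m a b x).1‖ ≤ 5 / 3 * (w / κ) := by
      have g1 := norm_sub_norm_le (SN m a b x).1 y0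
      rw [hy0n] at g1
      linarith
    have hnear : ‖SN m a b x - (q0 a - q0 b, fun k => q0 k.1)‖ < η := by
      rw [Prod.norm_def, max_lt_iff]
      refine ⟨?_, ?_⟩
      · rw [Prod.fst_sub, heq, sub_self, sub_zero]
        linarith
      · rw [Prod.snd_sub]
        exact lt_of_le_of_lt h2 (by linarith)
    have hnb := hball x hnear
    rw [SN_apply] at h1a h1b
    dsimp only at h1a h1b
    obtain ⟨q, hq⟩ : ∃ q, q = cf m x := ⟨_, rfl⟩
    rw [← hq] at h1a h1b hnb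
    have hsep := sep_near hε hδ hnb
    have hwκ : 0 < w / κ := by positivity
    have hrp : 0 < ‖q a - q b‖ := by linarith
    have hfree : ∀ i j, i ≠ j → q i ≠ q j := by
      intro i j hij heq'
      by_cases g1 : i = a ∧ j = b
      · rw [← g1.1, ← g1.2, heq', sub_self, norm_zero] at hrp
        exact lt_irrefl _ hrp
      by_cases g2 : i = b ∧ j = a
      · rw [← g2.1, ← g2.2, heq', sub_self, norm_zero] at hrp
        exact lt_irrefl _ hrp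
      have := hsep i j ⟨hij, g1, g2⟩
      rw [heq', sub_self, norm_zero] at this
      linarith
    have hwκ' : w / κ * κ = w := div_mul_cancel₀ _ hκ.ne'
    have hlow : 3 / 5 * κ ≤ w / ‖q a - q b‖ := by
      rw [le_div_iff₀ hrp]
      calc 3 / 5 * κ * ‖q a - q b‖ ≤ 3 / 5 * κ * (5 / 3 * (w / κ)) := by gcongr
        _ = w / κ * κ := by ring
        _ = w := hwκ'
    have hupp : w / ‖q a - q b‖ ≤ 3 / 4 * κ := by
      rw [div_le_iff₀ hrp]
      calc w = w / κ * κ := hwκ'.symm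
        _ = 3 / 4 * κ * (4 / 3 * (w / κ)) := by ring
        _ ≤ 3 / 4 * κ * ‖q a - q b‖ := by gcongr
    have hp1 := le_pot m hm q a b hab
    have hp2 := pot_le2 m hm q a b δ hδ0 hsep
    rw [← hw] at hp1 hp2
    rw [← hM] at hp2
    have hEn := neg_abs_le E
    have hEn' := le_abs_self E
    have hKlow : κ / 2 ≤ pot m q + E := by linarith
    have hKup : pot m q + E ≤ κ := by linarith
    have hK : 0 < pot m q + E := by linarith
    rw [dens_full (by omega) m hm E e (NbK m E q0 ε κ) x (by rw [← hq]; exact hfree)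
      (by rw [← hq]; exact hK) (fun p hp => ⟨hp, by rw [← hq]; exact hnb, ?_⟩), ← hq,
      ENNReal.ofReal_mul (by positivity), ENNReal.ofReal_toReal (V0_lt m hm).ne]
    · gcongr
    · have h3 : kin m p - pot m (cf m x) = E := hp.2.2.2
      rw [← hq] at h3
      show kin m p ≤ κ
      linarith
  have hlow := lintegral_mono (μ := (volume : Measure (Fin n → E3))) hpt
  rw [lintegral_const_mul' _ _ ENNReal.ofReal_ne_top,
    hk (D1.indicator 1) (measurable_one.indicator hD1m) D2 hD2m, lintegral_indicator_one hD1m] at hlow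
  have hD1v : volume D1 = ENNReal.ofReal ((w / (6 * κ)) ^ 3 * S) := by
    rw [hD1, Measure.addHaar_closedBall _ _ (by positivity : (0 : ℝ) ≤ w / (6 * κ)), finrank_E3,
      ENNReal.ofReal_mul (by positivity), hS, ENNReal.ofReal_toReal hAt]
  have hD2v : volume D2 = ENNReal.ofReal (volume D2).toReal := (ENNReal.ofReal_toReal hD2t).symm
  rw [hD1v, hD2v, ← ENNReal.ofReal_toReal hkt, ← ENNReal.ofReal_mul (by positivity),
    ← ENNReal.ofReal_mul (by positivity), ← ENNReal.ofReal_mul (by positivity)] at hlow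
  refine le_trans (ENNReal.ofReal_le_ofReal (le_of_eq ?_)) hlow
  have hκe : κ ^ (e - 3) = κ ^ e / κ ^ 3 := by
    rw [Real.rpow_sub hκ, ← Real.rpow_natCast κ 3]
    norm_num
  have hκ2 : (κ / 2) ^ e = (1 / 2) ^ e * κ ^ e := by
    rw [← Real.mul_rpow (by norm_num) hκ.le]
    congr 1
    ring
  rw [hκe, hκ2, div_pow w (6 * κ), mul_pow 6 κ, div_pow w 6]
  field_simp

/-- **Near a binary collision.** -/
theorem local_main (hn : 2 ≤ n) (m : Fin (n + 1) → ℝ) (hm : ∀ i, 0 < m i) (e : ℝ)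
    (he : 9 / 2 < e) (E : ℝ) (q0 : Cfg (n + 1)) (hq0 : ∑ i, m i • q0 i = 0) (a b : Fin (n + 1))
    (hab : a ≠ b) (heq : q0 a = q0 b) (hne : ∀ i j, P2 a b i j → q0 i ≠ q0 j) :
    ∃ ε₀ : ℝ, 0 < ε₀ ∧ ∀ ε : ℝ, 0 < ε → ε ≤ ε₀ → ∃ C : ℝ, 0 < C ∧ ∀ κ : ℝ, C ≤ κ →
      ENNReal.ofReal (κ ^ (e - 3) / C) ≤ lv m E e (NbK m E q0 ε κ) ∧
      lv m E e (NbK m E q0 ε κ) ≤ ENNReal.ofReal (C * κ ^ (e - 3)) ∧
      ∀ (ψ : Cfg (n + 1) × Cfg (n + 1) → ℝ)
        (φ : ℝ → Cfg (n + 1) × Cfg (n + 1) → Cfg (n + 1) × Cfg (n + 1)), IsFl m E ψ φ →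
        lv m E e {z | z ∈ NbK m E q0 ε κ ∧ NonW (Surf m E) φ z} ≤
          ENNReal.ofReal (C / κ ^ (3 / 2 : ℝ)) * lv m E e (NbK m E q0 ε κ) := by
  obtain ⟨δ, hδ0, hδ⟩ := exists_sep hn q0 a b hab hne
  refine ⟨δ / 2, by positivity, fun ε hε0 hε => ?_⟩
  obtain ⟨C1, hC1, h1⟩ := loc_up hn m hm e he E q0 a b hab heq hδ0 hε hδ
  obtain ⟨c, κ₀, hc, hκ₀, h2⟩ := loc_low hn m hm e (by linarith) E q0 hq0 a b hab heq hδ0 hε0 hε hδ
  obtain ⟨C, hC⟩ : ∃ C, C = C1 + κ₀ + |E| + 1 / c + C1 / c := ⟨_, rfl⟩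
  have hE0 := abs_nonneg E
  have hc1 : 0 < 1 / c := by positivity
  have hc2 : 0 ≤ C1 / c := by positivity
  have hCp : 0 < C := by rw [hC]; positivity
  refine ⟨C, hCp, fun κ hκC => ?_⟩
  have hκ0 : κ₀ ≤ κ := by linarith
  have hEκ : |E| ≤ κ := by linarith
  have hκ : 0 < κ := by linarith
  have hlow := h2 κ hκ0
  obtain ⟨hup, hnw⟩ := h1 κ hκ hEκ
  have hκe : 0 < κ ^ (e - 3) := Real.rpow_pos_of_pos hκ _
  refine ⟨le_trans (ENNReal.ofReal_le_ofReal ?_) hlow,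
    hup.trans (ENNReal.ofReal_le_ofReal ?_), fun ψ φ hφ => (hnw ψ φ hφ).trans ?_⟩
  · rw [div_eq_mul_inv, mul_comm]
    refine mul_le_mul_of_nonneg_right ?_ hκe.le
    rw [inv_le_comm₀ hCp hc]
    have : c⁻¹ = 1 / c := (one_div c).symm
    rw [this]
    linarith
  · exact mul_le_mul_of_nonneg_right (by linarith) hκe.le
  · refine le_trans ?_ (mul_le_mul_right hlow _)
    rw [← ENNReal.ofReal_mul (by positivity)]
    refine ENNReal.ofReal_le_ofReal ?_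
    have e1 : κ ^ (e - 9 / 2) = κ ^ (e - 3) / κ ^ (3 / 2 : ℝ) := by
      rw [← Real.rpow_sub hκ]
      congr 1
      ring
    rw [e1]
    have h3 : 0 < κ ^ (3 / 2 : ℝ) := Real.rpow_pos_of_pos hκ _
    have h4 : C1 ≤ C * c := by
      have : C1 / c ≤ C := by linarith
      rwa [div_le_iff₀ hc] at this
    calc C1 * (κ ^ (e - 3) / κ ^ (3 / 2 : ℝ)) ≤ C * c * (κ ^ (e - 3) / κ ^ (3 / 2 : ℝ)) := by gcongr
      _ = C / κ ^ (3 / 2 : ℝ) * (c * κ ^ (e - 3)) := by ring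

/-- **Near a binary collision, small exponents.** -/
theorem local_small (hn : 2 ≤ n) (m : Fin (n + 1) → ℝ) (hm : ∀ i, 0 < m i) (e : ℝ)
    (he : 3 < e) (he' : e < 9 / 2) (E : ℝ) (q0 : Cfg (n + 1)) (hq0 : ∑ i, m i • q0 i = 0)
    (a b : Fin (n + 1)) (hab : a ≠ b) (heq : q0 a = q0 b)
    (hne : ∀ i j, P2 a b i j → q0 i ≠ q0 j) :
    ∃ ε₀ : ℝ, 0 < ε₀ ∧ ∀ ε : ℝ, 0 < ε → ε ≤ ε₀ → ∃ C : ℝ, 0 < C ∧ ∀ κ : ℝ, C ≤ κ →
      ∀ (ψ : Cfg (n + 1) × Cfg (n + 1) → ℝ)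
        (φ : ℝ → Cfg (n + 1) × Cfg (n + 1) → Cfg (n + 1) × Cfg (n + 1)), IsFl m E ψ φ →
        lv m E e {z | z ∈ NbK m E q0 ε κ ∧ NonW (Surf m E) φ z} ≤
          ENNReal.ofReal (C / κ ^ (e - 3)) * lv m E e (NbK m E q0 ε κ) := by
  obtain ⟨δ, hδ0, hδ⟩ := exists_sep hn q0 a b hab hne
  refine ⟨δ / 2, by positivity, fun ε hε0 hε => ?_⟩
  obtain ⟨C1, hC1, h1⟩ := loc_up_small hn m hm e (by linarith) he' E q0 a b hab heq hδ0 hε hδ
  obtain ⟨c, κ₀, hc, hκ₀, h2⟩ := loc_low hn m hm e (by linarith) E q0 hq0 a b hab heq hδ0 hε0 hε hδ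
  obtain ⟨C, hC⟩ : ∃ C, C = κ₀ + |E| + C1 / c := ⟨_, rfl⟩
  have hE0 := abs_nonneg E
  have hc2 : 0 ≤ C1 / c := by positivity
  have hCp : 0 < C := by rw [hC]; positivity
  refine ⟨C, hCp, fun κ hκC ψ φ hφ => ?_⟩
  have hκ0 : κ₀ ≤ κ := by linarith
  have hEκ : |E| ≤ κ := by linarith
  have hκ : 0 < κ := by linarith
  have hlow := h2 κ hκ0
  have hκe : 0 < κ ^ (e - 3) := Real.rpow_pos_of_pos hκ _
  refine (h1 κ hEκ ψ φ hφ).trans ?_
  refine le_trans ?_ (mul_le_mul_right hlow _)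
  rw [← ENNReal.ofReal_mul (by positivity)]
  refine ENNReal.ofReal_le_ofReal ?_
  have h4 : C1 ≤ C * c := by
    have : C1 / c ≤ C := by linarith
    rwa [div_le_iff₀ hc] at this
  calc C1 ≤ C * c := h4
    _ = C / κ ^ (e - 3) * (c * κ ^ (e - 3)) := by
        field_simp

/-- upper bound for the measure -/
theorem loc_up_all (hn : 2 ≤ n) (m : Fin (n + 1) → ℝ) (hm : ∀ i, 0 < m i) (e : ℝ) (he : 3 < e)
    (E : ℝ) (q0 : Cfg (n + 1)) (a b : Fin (n + 1)) (hab : a ≠ b) (heq : q0 a = q0 b)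
    {δ ε : ℝ} (hδ0 : 0 < δ) (hε : ε ≤ δ / 2)
    (hδ : ∀ i j, P2 a b i j → 2 * δ ≤ ‖q0 i - q0 j‖) :
    ∃ C : ℝ, 0 ≤ C ∧ ∀ κ : ℝ, 0 < κ → |E| ≤ κ →
      lv m E e (NbK m E q0 ε κ) ≤ ENNReal.ofReal (C * κ ^ (e - 3)) := by
  have hma := hm a
  have hmb := hm b
  have hVe : ENNReal.ofReal (V0 m).toReal = V0 m := ENNReal.ofReal_toReal (V0_lt m hm).ne
  obtain ⟨B, hB⟩ : ∃ B : Set (Rest2 n a b → E3), B = closedBall (fun k => q0 k.1) |ε| := ⟨_, rfl⟩
  have hBm : MeasurableSet B := by rw [hB]; exact measurableSet_closedBall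
  have hBt : volume B ≠ ⊤ := by rw [hB]; exact measure_closedBall_lt_top.ne
  obtain ⟨D, hD0, hD⟩ := up_int m hm a b hab e he (m a * m b / 2) (by positivity) B hBm hBt
  obtain ⟨A, hA⟩ : ∃ A, A = m a * m b + ((∑ i, m i) ^ 2 / δ + |E|) * δ := ⟨_, rfl⟩
  have hA0 : 0 < A := by rw [hA]; positivity
  have hmemB : ∀ x : Fin n → E3, (∀ i, ‖cf m x i - q0 i‖ < ε) → (SN m a b x).2 ∈ B := by
    intro x hx
    rw [hB, SN_apply, mem_closedBall, dist_eq_norm, pi_norm_le_iff_of_nonneg (abs_nonneg _)]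
    intro k
    exact (hx k.1).le.trans (le_abs_self ε)
  refine ⟨A ^ e * (V0 m).toReal * D, by positivity, fun κ hκ hEκ => ?_⟩
  have hpt : ∀ x : Fin n → E3, dens m E e (NbK m E q0 ε κ) x ≤
      ENNReal.ofReal (A ^ e * (V0 m).toReal) *
        (out e (m a * m b / 2 / κ) (SN m a b x).1 * B.indicator 1 (SN m a b x).2) := by
    intro x
    by_cases hz : ¬ (0 < pot m (cf m x) + E) ∨ ∀ p, (cf m x, p) ∉ NbK m E q0 ε κ
    · rw [dens_zero m E e _ x hz]; exact zero_le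
    rw [not_or, not_not, not_forall] at hz
    obtain ⟨hK, p, hp⟩ := hz
    rw [not_not] at hp
    obtain ⟨hx, hR, hKκ⟩ := over_near m E ε κ q0 x p hp
    obtain ⟨hr, hrlow, hKup, -⟩ := pair_near m hm E hab heq hδ0 hε hδ hR hx hKκ hEκ
    rw [← hA] at hKup
    refine (dens_le m E e _ x).trans ?_
    rw [indicator_of_mem (hmemB x hR), Pi.one_apply, mul_one, SN_apply]
    dsimp only
    unfold out
    rw [indicator_of_mem (show cf m x a - cf m x b ∈ {y : E3 | m a * m b / 2 / κ ≤ ‖y‖} from hrlow),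
      ENNReal.ofReal_mul (by positivity), hVe, mul_right_comm,
      ← ENNReal.ofReal_mul (by positivity)]
    refine mul_le_mul_left (ENNReal.ofReal_le_ofReal ?_) _
    calc (pot m (cf m x) + E) ^ e ≤ (A / ‖cf m x a - cf m x b‖) ^ e := by
          exact Real.rpow_le_rpow hK.le hKup (by linarith)
      _ = A ^ e * ‖cf m x a - cf m x b‖ ^ (-e) := by
          rw [Real.div_rpow hA0.le hr.le, Real.rpow_neg hr.le]
          rfl
  unfold lv
  refine (lintegral_mono hpt).trans ?_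
  rw [lintegral_const_mul' _ _ ENNReal.ofReal_ne_top, hD κ hκ, ← ENNReal.ofReal_mul (by positivity)]
  exact ENNReal.ofReal_le_ofReal (le_of_eq (by ring))

/-- **Exact order of the measure near a binary collision, and the proportion of the nonwandering
points.** -/
theorem local_all (hn : 2 ≤ n) (m : Fin (n + 1) → ℝ) (hm : ∀ i, 0 < m i) (e : ℝ)
    (he : 3 < e) (he2 : e ≠ 9 / 2) (E : ℝ) (q0 : Cfg (n + 1)) (hq0 : ∑ i, m i • q0 i = 0)
    (a b : Fin (n + 1)) (hab : a ≠ b) (heq : q0 a = q0 b)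
    (hne : ∀ i j, P2 a b i j → q0 i ≠ q0 j) :
    ∃ ε₀ : ℝ, 0 < ε₀ ∧ ∀ ε : ℝ, 0 < ε → ε ≤ ε₀ → ∃ C : ℝ, 0 < C ∧ ∀ κ : ℝ, C ≤ κ →
      ENNReal.ofReal (κ ^ (e - 3) / C) ≤ lv m E e (NbK m E q0 ε κ) ∧
      lv m E e (NbK m E q0 ε κ) ≤ ENNReal.ofReal (C * κ ^ (e - 3)) ∧
      ∀ (ψ : Cfg (n + 1) × Cfg (n + 1) → ℝ)
        (φ : ℝ → Cfg (n + 1) × Cfg (n + 1) → Cfg (n + 1) × Cfg (n + 1)), IsFl m E ψ φ →
        lv m E e {z | z ∈ NbK m E q0 ε κ ∧ NonW (Surf m E) φ z} ≤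
          ENNReal.ofReal (C / κ ^ min (e - 3) (3 / 2)) * lv m E e (NbK m E q0 ε κ) := by
  rcases lt_or_gt_of_ne he2 with he' | he'
  · obtain ⟨ε₁, hε₁, h1⟩ := local_small hn m hm e he he' E q0 hq0 a b hab heq hne
    obtain ⟨δ, hδ0, hδ⟩ := exists_sep hn q0 a b hab hne
    refine ⟨min ε₁ (δ / 2), lt_min hε₁ (by positivity), fun ε hε0 hε => ?_⟩
    have hεδ : ε ≤ δ / 2 := hε.trans (min_le_right _ _)
    obtain ⟨C1, hC1, h1⟩ := h1 ε hε0 (hε.trans (min_le_left _ _))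
    obtain ⟨C2, hC2, h2⟩ := loc_up_all hn m hm e he E q0 a b hab heq hδ0 hεδ hδ
    obtain ⟨c, κ₀, hc, hκ₀, h3⟩ := loc_low hn m hm e (by linarith) E q0 hq0 a b hab heq hδ0 hε0
      hεδ hδ
    obtain ⟨C, hC⟩ : ∃ C, C = C1 + C2 + κ₀ + |E| + 1 / c := ⟨_, rfl⟩
    have hE0 := abs_nonneg E
    have hc1 : 0 < 1 / c := by positivity
    have hCp : 0 < C := by rw [hC]; positivity
    refine ⟨C, hCp, fun κ hκC => ?_⟩
    have hκ : 0 < κ := by linarith
    have hκe : 0 < κ ^ (e - 3) := Real.rpow_pos_of_pos hκ _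
    refine ⟨le_trans (ENNReal.ofReal_le_ofReal ?_) (h3 κ (by linarith)),
      (h2 κ hκ (by linarith)).trans (ENNReal.ofReal_le_ofReal ?_), fun ψ φ hφ =>
      (h1 κ (by linarith) ψ φ hφ).trans ?_⟩
    · rw [div_eq_mul_inv, mul_comm]
      refine mul_le_mul_of_nonneg_right ?_ hκe.le
      rw [inv_le_comm₀ hCp hc]
      have : c⁻¹ = 1 / c := (one_div c).symm
      rw [this]
      linarith
    · exact mul_le_mul_of_nonneg_right (by linarith) hκe.le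
    · rw [min_eq_left (by linarith)]
      refine mul_le_mul_left (ENNReal.ofReal_le_ofReal ?_) _
      exact div_le_div_of_nonneg_right (by linarith) hκe.le
  · obtain ⟨ε₀, hε₀, h⟩ := local_main hn m hm e he' E q0 hq0 a b hab heq hne
    refine ⟨ε₀, hε₀, fun ε hε0 hε => ?_⟩
    obtain ⟨C, hC, h⟩ := h ε hε0 hε
    refine ⟨C, hC, fun κ hκ => ?_⟩
    rw [min_eq_right (by linarith)]
    exact h κ hκ

end Pool.Agent.L5helper62.NB
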